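import Mathlib

/-!
# Generic ideals of the square-free algebra with two linear generators

`SqFree K n` is the square-free algebra `K[x₁, …, xₙ] / (x₁², …, xₙ²)`.  For every infinite field `K`,
every odd `n = 2 m + 1 ≥ 7` and all degrees `d₁ = d₂ = 1`, `d₃, …, d_r > m` (for instance `r = 2`, degrees
`1, 1`) the Hilbert series of the quotient by a generic ideal with generators of these degrees is not the
truncated series `⟨(1+t)ⁿ ∏ (1-t^{d_i})⟩`.
-/

open MvPolynomial

namespace Pool.Agent.Results.MP_3acc10_al.LinearFormsFail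

/-- The ideal `(x₁², …, xₙ²)` of `K[x₁, …, xₙ]`. -/
noncomputable def squares (K : Type*) [Field K] (n : ℕ) : Ideal (MvPolynomial (Fin n) K) :=
  Ideal.span (Set.range fun i : Fin n => (X i : MvPolynomial (Fin n) K) ^ 2)

/-- The square-free algebra `K[x₁, …, xₙ] / (x₁², …, xₙ²)`. -/
def SqFree (K : Type*) [Field K] (n : ℕ) : Type _ := MvPolynomial (Fin n) K ⧸ squares K n

noncomputable instance (K : Type*) [Field K] (n : ℕ) : CommRing (SqFree K n) :=
  Ideal.Quotient.commRing (squares K n)

noncomputable instance (K : Type*) [Field K] (n : ℕ) : Algebra K (SqFree K n) :=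
  Ideal.Quotient.algebra K

/-- The index set of the coefficient vectors of `(f₁, …, f_r)`, `f_j` of degree `d j`: the pairs of an index `j`
and a square-free monomial of degree `d j`, given by a set of `d j` variables. -/
abbrev Coeff (n : ℕ) {r : ℕ} (d : Fin r → ℕ) := (j : Fin r) × {s : Finset (Fin n) // s.card = d j}

variable {K : Type*} [Field K] {n r : ℕ} {d : Fin r → ℕ}

/-- The class of a polynomial in the square-free algebra. -/
noncomputable def cls (p : MvPolynomial (Fin n) K) : SqFree K n := Ideal.Quotient.mk (squares K n) p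

/-- The form `f_j` with the coefficient vector `c`. -/
noncomputable def form (c : Coeff n d → K) (j : Fin r) : SqFree K n :=
  ∑ s : {s : Finset (Fin n) // s.card = d j}, c ⟨j, s⟩ • ∏ i ∈ s.1, cls (X i)

/-- The ideal `(f₁, …, f_r)` of the square-free algebra. -/
noncomputable def formIdeal (c : Coeff n d → K) : Ideal (SqFree K n) := Ideal.span (Set.range (form c))

/-- The quotient of the square-free algebra by `(f₁, …, f_r)`. -/
def Quot (c : Coeff n d → K) : Type _ := SqFree K n ⧸ formIdeal c

noncomputable instance (c : Coeff n d → K) : CommRing (Quot c) := Ideal.Quotient.commRing (formIdeal c)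

noncomputable instance (c : Coeff n d → K) : Algebra K (Quot c) := Ideal.Quotient.algebra K

/-- The class of a polynomial in the quotient. -/
noncomputable def qcls (c : Coeff n d → K) (p : MvPolynomial (Fin n) K) : Quot c :=
  Ideal.Quotient.mk (formIdeal c) (cls p)

/-- The homogeneous part of degree `i` of the quotient: the classes of the homogeneous polynomials of
degree `i`. -/
noncomputable def qpiece (c : Coeff n d → K) (i : ℕ) : Submodule K (Quot c) :=
  Submodule.span K {x | ∃ p : MvPolynomial (Fin n) K, p.IsHomogeneous i ∧ qcls c p = x}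

/-- The Hilbert function of the quotient of the square-free algebra by `(f₁, …, f_r)`. -/
noncomputable def hilb (c : Coeff n d → K) (i : ℕ) : ℕ := Module.finrank K (qpiece c i)

/-- The series `(1+t)ⁿ ∏ⱼ (1-t^{d_j})`. -/
noncomputable def series (n : ℕ) {r : ℕ} (d : Fin r → ℕ) : Polynomial ℤ :=
  (1 + Polynomial.X) ^ n * ∏ j, (1 - Polynomial.X ^ d j)

/-- The coefficient of `t ^ i` in the truncation of `(1+t)ⁿ ∏ⱼ (1-t^{d_j})` in front of the first
coefficient that is not positive. -/
noncomputable def expected (n : ℕ) {r : ℕ} (d : Fin r → ℕ) (i : ℕ) : ℤ :=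
  if ∀ k ≤ i, 0 < (series n d).coeff k then (series n d).coeff i else 0

/-- The Hilbert function of the quotient by a generic ideal with generators of degrees `d j` is `H`: this holds for
all coefficient vectors outside the zero set of some nonzero polynomial `G`. -/
def GenericHilbert (K : Type*) [Field K] (n : ℕ) {r : ℕ} (d : Fin r → ℕ) (H : ℕ → ℤ) : Prop :=
  ∃ G : MvPolynomial (Coeff n d) K, G ≠ 0 ∧
    ∀ c : Coeff n d → K, eval c G ≠ 0 → ∀ i, (hilb c i : ℤ) = H i

/-! ### The functional -/

section functional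

variable (α a : Fin n → K)

/-- the weight of a node -/
noncomputable def uu (k : Fin n) : K := (α k * ∏ l ∈ Finset.univ.erase k, (a k - a l))⁻¹

/-- the weight of a set of variables -/
noncomputable def Wt (I : Finset (Fin n)) : K :=
  (∏ i ∈ I, uu α a i) * ∏ i ∈ I, ∏ j ∈ I.erase i, (a i - a j)

variable {α a}

lemma Wt_insert {k : Fin n} {J : Finset (Fin n)} (hk : k ∉ J) :
    Wt α a (insert k J) = Wt α a J * (uu α a k * ((-1) ^ J.card * ∏ j ∈ J, (a k - a j) ^ 2)) := by
  have h1 : ∏ i ∈ J, ∏ j ∈ (insert k J).erase i, (a i - a j)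
      = ∏ i ∈ J, ((a i - a k) * ∏ j ∈ J.erase i, (a i - a j)) := by
    refine Finset.prod_congr rfl fun i hi => ?_
    have hik : k ≠ i := fun h => hk (h ▸ hi)
    rw [Finset.erase_insert_of_ne hik, Finset.prod_insert (by simp [hk])]
  have h2 : ∏ i ∈ J, (a i - a k) = (-1) ^ J.card * ∏ j ∈ J, (a k - a j) := by
    rw [← Finset.prod_const, ← Finset.prod_mul_distrib]
    exact Finset.prod_congr rfl fun i _ => by ring
  unfold Wt
  rw [Finset.prod_insert hk, Finset.prod_insert hk, Finset.erase_insert hk, h1,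
    Finset.prod_mul_distrib, h2, Finset.prod_pow]
  ring

lemma sum_vanish (hα : ∀ k, α k ≠ 0) (ha : Function.Injective a) (J : Finset (Fin n)) (e : ℕ)
    (hJ : 2 * J.card + e + 1 < n) :
    ∑ k ∈ Finset.univ \ J, α k * a k ^ e * Wt α a (insert k J) = 0 := by
  have key : ∑ k : Fin n, (Polynomial.X ^ e * ∏ j ∈ J, (Polynomial.X - Polynomial.C (a j)) ^ 2 :
      Polynomial K).eval (a k) / ∏ l ∈ Finset.univ.erase k, (a k - a l) = 0 := by
    have hdeg : (Polynomial.X ^ e * ∏ j ∈ J, (Polynomial.X - Polynomial.C (a j)) ^ 2 :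
        Polynomial K).natDegree ≤ e + 2 * J.card := by
      refine (Polynomial.natDegree_mul_le).trans ?_
      refine add_le_add (Polynomial.natDegree_X_pow_le e) ?_
      refine (Polynomial.natDegree_prod_le _ _).trans ?_
      refine (Finset.sum_le_sum (g := fun _ => 2) fun j _ => ?_).trans (by simp [mul_comm])
      refine (Polynomial.natDegree_pow_le).trans ?_
      simp
    have h := Lagrange.coeff_eq_sum (s := Finset.univ) (v := a) ha.injOn
      (P := Polynomial.X ^ e * ∏ j ∈ J, (Polynomial.X - Polynomial.C (a j)) ^ 2) ?_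
    · rw [← h]
      refine Polynomial.coeff_eq_zero_of_natDegree_lt ?_
      simp only [Finset.card_univ, Fintype.card_fin]
      omega
    · refine lt_of_le_of_lt Polynomial.degree_le_natDegree ?_
      simp only [Finset.card_univ, Fintype.card_fin]
      exact_mod_cast (by omega)
  have h2 : ∀ k ∈ Finset.univ \ J, α k * a k ^ e * Wt α a (insert k J) =
      Wt α a J * (-1) ^ J.card * ((Polynomial.X ^ e * ∏ j ∈ J, (Polynomial.X - Polynomial.C (a j)) ^ 2 :
      Polynomial K).eval (a k) / ∏ l ∈ Finset.univ.erase k, (a k - a l)) := by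
    intro k hk
    rw [Wt_insert (by simpa using hk), uu]
    simp only [Polynomial.eval_mul, Polynomial.eval_pow, Polynomial.eval_X, Polynomial.eval_prod,
      Polynomial.eval_sub, Polynomial.eval_C]
    have := hα k
    rw [mul_inv]
    field_simp
  rw [Finset.sum_congr rfl h2, ← Finset.mul_sum]
  have h3 : ∑ k ∈ Finset.univ \ J, ((Polynomial.X ^ e * ∏ j ∈ J, (Polynomial.X - Polynomial.C (a j)) ^ 2 :
      Polynomial K).eval (a k) / ∏ l ∈ Finset.univ.erase k, (a k - a l)) =
      ∑ k : Fin n, ((Polynomial.X ^ e * ∏ j ∈ J, (Polynomial.X - Polynomial.C (a j)) ^ 2 :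
      Polynomial K).eval (a k) / ∏ l ∈ Finset.univ.erase k, (a k - a l)) := by
    refine Finset.sum_subset (Finset.subset_univ _) fun k _ hk => ?_
    have hkJ : k ∈ J := by simpa using hk
    have : ∏ j ∈ J, (a k - a j) ^ 2 = 0 := Finset.prod_eq_zero hkJ (by simp)
    simp [Polynomial.eval_prod, this]
  rw [h3, key, mul_zero]

lemma Wt_ne_zero (hα : ∀ k, α k ≠ 0) (ha : Function.Injective a) (I : Finset (Fin n)) :
    Wt α a I ≠ 0 := by
  unfold Wt uu
  refine mul_ne_zero (Finset.prod_ne_zero_iff.2 fun i _ => inv_ne_zero (mul_ne_zero (hα i) ?_))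
    (Finset.prod_ne_zero_iff.2 fun i _ => Finset.prod_ne_zero_iff.2 fun j hj => ?_)
  · exact Finset.prod_ne_zero_iff.2 fun l hl => sub_ne_zero.2 fun h => (Finset.ne_of_mem_erase hl) (ha h).symm
  · exact sub_ne_zero.2 fun h => (Finset.ne_of_mem_erase hj) (ha h).symm

variable (α a)

/-- the value of the functional on a monomial -/
noncomputable def ww (m : ℕ) (e : Fin n →₀ ℕ) : K :=
  open Classical in
  if (∀ i, e i ≤ 1) ∧ e.support.card = m then Wt α a e.support else 0

/-- the functional -/
noncomputable def LL (m : ℕ) : MvPolynomial (Fin n) K →ₗ[K] K :=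
  (basisMonomials (Fin n) K).constr K (ww α a m)

lemma LL_monomial (m : ℕ) (e : Fin n →₀ ℕ) : LL α a m (monomial e 1) = ww α a m e := by
  have := (basisMonomials (Fin n) K).constr_basis K (ww α a m) e
  simpa [LL] using this

lemma prod_X_eq (s : Finset (Fin n)) :
    (∏ i ∈ s, X i : MvPolynomial (Fin n) K) = monomial (∑ i ∈ s, Finsupp.single i 1) 1 := by
  simp only [X]
  rw [← monomial_sum_one]

lemma ind_apply (s : Finset (Fin n)) (i : Fin n) :
    (∑ k ∈ s, Finsupp.single k 1 : Fin n →₀ ℕ) i = if i ∈ s then 1 else 0 := by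
  rw [Finsupp.finsetSum_apply]
  simp [Finsupp.single_apply]

lemma ind_support (s : Finset (Fin n)) : (∑ k ∈ s, Finsupp.single k 1 : Fin n →₀ ℕ).support = s := by
  ext i
  simp [Finsupp.mem_support_iff, ind_apply]


lemma LL_mul_sq (m : ℕ) (i : Fin n) (q : MvPolynomial (Fin n) K) : LL α a m (q * X i ^ 2) = 0 := by
  induction q using MvPolynomial.induction_on' with
  | monomial e b =>
    have h : (monomial e b : MvPolynomial (Fin n) K) * X i ^ 2
        = b • monomial (e + Finsupp.single i 2) 1 := by
      rw [X_pow_eq_monomial, monomial_mul, smul_monomial]; simp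
    rw [h, map_smul, LL_monomial, ww, if_neg, smul_zero]
    rintro ⟨h1, -⟩
    have := h1 i
    rw [Finsupp.add_apply, Finsupp.single_eq_same] at this
    omega
  | add p q hp hq => rw [add_mul, map_add, hp, hq, add_zero]

/-- a product of more than `m` variables is killed -/
lemma LL_mul_big (m : ℕ) (s : Finset (Fin n)) (hs : m < s.card) (q : MvPolynomial (Fin n) K) :
    LL α a m (q * ∏ i ∈ s, X i) = 0 := by
  induction q using MvPolynomial.induction_on' with
  | monomial e b =>
    have h : (monomial e b : MvPolynomial (Fin n) K) * ∏ i ∈ s, X i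
        = b • monomial (e + ∑ i ∈ s, Finsupp.single i 1) 1 := by
      rw [prod_X_eq, monomial_mul, smul_monomial]; simp
    rw [h, map_smul, LL_monomial, ww, if_neg, smul_zero]
    rintro ⟨-, h2⟩
    have hsub : s ⊆ (e + ∑ i ∈ s, Finsupp.single i 1).support := by
      intro i hi
      rw [Finsupp.mem_support_iff, Finsupp.add_apply, ind_apply, if_pos hi]
      omega
    have := Finset.card_le_card hsub
    omega
  | add p q hp hq => rw [add_mul, map_add, hp, hq, add_zero]

variable {α a}

/-- the two linear forms are killed -/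
lemma LL_mul_lin (hα : ∀ k, α k ≠ 0) (ha : Function.Injective a) (m : ℕ) (hn : n = 2 * m + 1)
    (e0 : ℕ) (he0 : e0 ≤ 1) (q : MvPolynomial (Fin n) K) :
    LL α a m (q * ∑ k, (α k * a k ^ e0) • X k) = 0 := by
  induction q using MvPolynomial.induction_on' with
  | monomial e b =>
    have h : (monomial e b : MvPolynomial (Fin n) K) * ∑ k, (α k * a k ^ e0) • X k
        = b • ∑ k, (α k * a k ^ e0) • monomial (e + Finsupp.single k 1) 1 := by
      rw [Finset.mul_sum, Finset.smul_sum]
      refine Finset.sum_congr rfl fun k _ => ?_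
      rw [X, mul_smul_comm, monomial_mul, smul_comm b, smul_monomial b]
      simp
    rw [h, map_smul, map_sum]
    simp only [map_smul, LL_monomial, smul_eq_mul]
    suffices H : ∑ k, α k * a k ^ e0 * ww α a m (e + Finsupp.single k 1) = 0 by rw [H, mul_zero]
    by_cases hsq : ∀ i, e i ≤ 1
    · by_cases hc : e.support.card + 1 = m
      · rw [← sum_vanish hα ha e.support e0 (by omega)]
        symm
        rw [Finset.sum_subset (Finset.subset_univ (Finset.univ \ e.support))
          (f := fun k => α k * a k ^ e0 * ww α a m (e + Finsupp.single k 1)) ?_ |>.symm]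
        · refine Finset.sum_congr rfl fun k hk => ?_
          have hk' : k ∉ e.support := by simpa using hk
          have hs : (e + Finsupp.single k 1).support = insert k e.support := by
            ext i
            by_cases hik : i = k
            · subst hik; simp
            · simp [hik]
          rw [ww, if_pos, hs]
          refine ⟨fun i => ?_, ?_⟩
          · by_cases hik : k = i
            · subst hik
              have : e k = 0 := by simpa using hk'
              simp [this]
            · have := hsq i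
              simpa [Finsupp.single_apply, hik] using this
          · rw [hs, Finset.card_insert_of_notMem hk']; exact hc
        · intro k _ hk
          have hk' : k ∈ e.support := by simpa using hk
          rw [ww, if_neg, mul_zero]
          rintro ⟨h1, -⟩
          have := h1 k
          have h0 : e k ≠ 0 := by simpa using hk'
          simp at this
          omega
      · refine Finset.sum_eq_zero fun k _ => ?_
        rw [ww, if_neg, mul_zero]
        rintro ⟨h1, h2⟩
        have hek : e k = 0 := by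
          have := h1 k
          simp at this
          omega
        have hs : (e + Finsupp.single k 1).support = insert k e.support := by
          ext i
          by_cases hik : i = k
          · subst hik; simp
          · simp [hik]
        rw [hs, Finset.card_insert_of_notMem (by simp [hek])] at h2
        exact hc h2
    · refine Finset.sum_eq_zero fun k _ => ?_
      rw [ww, if_neg, mul_zero]
      rintro ⟨h1, -⟩
      refine hsq fun i => ?_
      have := h1 i
      rw [Finsupp.add_apply] at this
      omega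
  | add p q hp hq => rw [add_mul, map_add, hp, hq, add_zero]

end functional

/-! ### Lifting to the polynomial ring -/

/-- the form as a polynomial -/
noncomputable def FF (c : Coeff n d → K) (j : Fin r) : MvPolynomial (Fin n) K :=
  ∑ s : {s : Finset (Fin n) // s.card = d j}, c ⟨j, s⟩ • ∏ i ∈ s.1, X i

/-- `cls` as a homomorphism of algebras -/
noncomputable def clsHom : MvPolynomial (Fin n) K →ₐ[K] SqFree K n := Ideal.Quotient.mkₐ K (squares K n)

/-- `qcls` as a homomorphism of algebras -/
noncomputable def qHom (c : Coeff n d → K) : MvPolynomial (Fin n) K →ₐ[K] Quot c :=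
  (Ideal.Quotient.mkₐ K (formIdeal c)).comp clsHom

lemma cls_eq (p : MvPolynomial (Fin n) K) : cls p = clsHom p := rfl

lemma qcls_eq (c : Coeff n d → K) (p : MvPolynomial (Fin n) K) : qcls c p = qHom c p := rfl

lemma mk_FF (c : Coeff n d → K) (j : Fin r) : cls (FF c j) = form c j := by
  unfold FF form
  simp only [cls_eq, map_sum, map_smul, map_prod]

lemma FF_lin (c : Coeff n d → K) (j : Fin r) (hj : d j = 1) :
    FF c j = ∑ k, c ⟨j, ⟨{k}, by simp [hj]⟩⟩ • X k := by
  unfold FF
  symm
  refine Fintype.sum_bijective (fun k : Fin n => (⟨{k}, by simp [hj]⟩ : {s : Finset (Fin n) // s.card = d j}))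
    ⟨fun k l h => ?_, fun s => ?_⟩ _ _ fun k => ?_
  · simpa using h
  · obtain ⟨s, hs⟩ := s
    obtain ⟨k, hk⟩ := Finset.card_eq_one.1 (hs.trans hj)
    exact ⟨k, Subtype.ext hk.symm⟩
  · simp

lemma not_mem (m : ℕ) (hn : n = 2 * m + 1) (j₀ j₁ : Fin r) (h₀ : d j₀ = 1) (h₁ : d j₁ = 1)
    (hd : ∀ j, j ≠ j₀ → j ≠ j₁ → m < d j) (c : Coeff n d → K)
    (hc0 : ∀ k, c ⟨j₀, ⟨{k}, by simp [h₀]⟩⟩ ≠ 0)
    (hc1 : ∀ k l, k ≠ l → c ⟨j₁, ⟨{k}, by simp [h₁]⟩⟩ * c ⟨j₀, ⟨{l}, by simp [h₀]⟩⟩
      ≠ c ⟨j₁, ⟨{l}, by simp [h₁]⟩⟩ * c ⟨j₀, ⟨{k}, by simp [h₀]⟩⟩)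
    (I : Finset (Fin n)) (hI : I.card = m) :
    cls (∏ i ∈ I, X i) ∉ formIdeal c := by
  set α : Fin n → K := fun k => c ⟨j₀, ⟨{k}, by simp [h₀]⟩⟩ with hα
  set a : Fin n → K := fun k => c ⟨j₁, ⟨{k}, by simp [h₁]⟩⟩ / α k with ha
  have ha' : Function.Injective a := by
    intro k l hkl
    by_contra hne
    refine hc1 k l hne ?_
    have := hc0 k
    have := hc0 l
    simp only [ha] at hkl
    rw [div_eq_div_iff (hc0 k) (hc0 l)] at hkl
    exact hkl
  intro hmem
  have hmap : formIdeal c = (Ideal.span (Set.range (FF c))).map (clsHom : _ →ₐ[K] SqFree K n) := by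
    rw [Ideal.map_span, ← Set.range_comp]
    unfold formIdeal
    congr 1
    ext x
    simp [← cls_eq, mk_FF]
  rw [hmap, Ideal.mem_map_iff_of_surjective _
    (show Function.Surjective (clsHom : _ →ₐ[K] SqFree K n) from Ideal.Quotient.mk_surjective)] at hmem
  obtain ⟨q, hq, hqe⟩ := hmem
  have hqe : q - ∏ i ∈ I, X i ∈ squares K n := Ideal.Quotient.eq.1 hqe
  have hsq : ∀ p ∈ squares K n, ∀ g, LL α a m (g * p) = 0 := by
    intro p hp
    unfold squares at hp
    induction hp using Submodule.span_induction with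
    | mem x hx => obtain ⟨i, rfl⟩ := hx; exact fun g => LL_mul_sq α a m i g
    | zero => intro g; simp
    | add x y _ _ hx hy => intro g; rw [mul_add, map_add, hx, hy, add_zero]
    | smul b x _ hx => intro g; rw [smul_eq_mul, ← mul_assoc]; exact hx _
  have hF : ∀ p ∈ Ideal.span (Set.range (FF c)), ∀ g, LL α a m (g * p) = 0 := by
    intro p hp
    induction hp using Submodule.span_induction with
    | mem x hx =>
      obtain ⟨j, rfl⟩ := hx
      intro g
      by_cases hj0 : j = j₀
      · subst hj0
        have := LL_mul_lin (α := α) (a := a) hc0 ha' m hn 0 (by norm_num) g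
        rw [FF_lin c j h₀]
        simpa using this
      · by_cases hj1 : j = j₁
        · subst hj1
          have := LL_mul_lin (α := α) (a := a) hc0 ha' m hn 1 le_rfl g
          rw [FF_lin c j h₁]
          have h2 : ∀ k, α k * a k ^ 1 = c ⟨j, ⟨{k}, by simp [h₁]⟩⟩ := by
            intro k
            simp only [pow_one, ha]
            exact mul_div_cancel₀ _ (hc0 k)
          simp_rw [h2] at this
          exact this
        · unfold FF
          rw [Finset.mul_sum, map_sum]
          refine Finset.sum_eq_zero fun s _ => ?_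
          rw [mul_smul_comm, map_smul, LL_mul_big α a m s.1 (by rw [s.2]; exact hd j hj0 hj1) g, smul_zero]
    | zero => intro g; simp
    | add x y _ _ hx hy => intro g; rw [mul_add, map_add, hx, hy, add_zero]
    | smul b x _ hx => intro g; rw [smul_eq_mul, ← mul_assoc]; exact hx _
  have h1 := hsq _ hqe 1
  have h2 := hF _ hq 1
  rw [one_mul] at h1 h2
  rw [map_sub, h2, zero_sub, neg_eq_zero, prod_X_eq, LL_monomial, ww, if_pos, ind_support] at h1
  · exact Wt_ne_zero hc0 ha' I h1
  · refine ⟨fun i => ?_, by rw [ind_support, hI]⟩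
    rw [ind_apply]
    split_ifs <;> norm_num

lemma qpiece_eq (c : Coeff n d → K) (i : ℕ) :
    qpiece c i = (homogeneousSubmodule (Fin n) K i).map (qHom c).toLinearMap := by
  unfold qpiece
  have : {x | ∃ p : MvPolynomial (Fin n) K, p.IsHomogeneous i ∧ qcls c p = x} =
      ((homogeneousSubmodule (Fin n) K i).map (qHom c).toLinearMap : Set (Quot c)) := by
    ext x
    simp [qcls_eq]
  rw [this, Submodule.span_eq]

instance finite_piece (c : Coeff n d → K) (i : ℕ) : Module.Finite K (qpiece c i) := by
  rw [qpiece_eq]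
  have : Module.Finite K (homogeneousSubmodule (Fin n) K i) :=
    Module.Finite.iff_fg.2 (homogeneousSubmodule_fg (Fin n) K i)
  infer_instance

lemma eq_zero_of_finrank {M : Type*} [CommRing M] [Algebra K M] (p : Submodule K M) [Module.Finite K p]
    (h : Module.finrank K p = 0) : ∀ x ∈ p, x = 0 := by
  intro x hx
  have hs : Subsingleton p := Module.finrank_zero_iff.1 h
  exact congrArg Subtype.val (Subsingleton.elim (⟨x, hx⟩ : p) 0)

lemma hilb_pos (c : Coeff n d → K) (I : Finset (Fin n))
    (h : cls (∏ i ∈ I, X i) ∉ formIdeal c) : 0 < hilb c I.card := by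
  rw [Nat.pos_iff_ne_zero]
  intro h0
  unfold hilb at h0
  have hmem : qcls c (∏ i ∈ I, X i) ∈ qpiece c I.card := by
    refine Submodule.subset_span ⟨∏ i ∈ I, X i, ?_, rfl⟩
    have := IsHomogeneous.prod I (fun i => (X i : MvPolynomial (Fin n) K)) (fun _ => 1)
      (fun i _ => isHomogeneous_X K i)
    simpa using this
  have hz : qcls c (∏ i ∈ I, X i) = 0 := eq_zero_of_finrank (qpiece c I.card) h0 _ hmem
  exact h (Ideal.Quotient.eq_zero_iff_mem.1 hz)

/-! ### The expected coefficient -/

lemma coeff_nonpos (k : ℕ) :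
    ((1 + Polynomial.X) ^ (2 * k + 7) * (1 - Polynomial.X) ^ 2 : Polynomial ℤ).coeff (k + 3) ≤ 0 := by
  have h : ((1 + Polynomial.X) ^ (2 * k + 7) * (1 - Polynomial.X) ^ 2 : Polynomial ℤ).coeff (k + 3) =
      ((2 * k + 7).choose (k + 3) : ℤ) - 2 * ((2 * k + 7).choose (k + 2) : ℤ)
        + ((2 * k + 7).choose (k + 1) : ℤ) := by
    have e : ((1 + Polynomial.X) ^ (2 * k + 7) * (1 - Polynomial.X) ^ 2 : Polynomial ℤ) =
        (1 + Polynomial.X) ^ (2 * k + 7) - Polynomial.C 2 * ((1 + Polynomial.X) ^ (2 * k + 7) * Polynomial.X)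
          + (1 + Polynomial.X) ^ (2 * k + 7) * Polynomial.X ^ 2 := by
      rw [show (Polynomial.C 2 : Polynomial ℤ) = 2 from rfl]; ring
    rw [e, Polynomial.coeff_add, Polynomial.coeff_sub, Polynomial.coeff_C_mul, Polynomial.coeff_mul_X,
      show k + 3 = (k + 1) + 2 from rfl, Polynomial.coeff_mul_X_pow, Polynomial.coeff_one_add_X_pow,
      Polynomial.coeff_one_add_X_pow, Polynomial.coeff_one_add_X_pow]
  rw [h]
  have e1 := Nat.choose_succ_right_eq (2 * k + 7) (k + 2)
  have e2 := Nat.choose_succ_right_eq (2 * k + 7) (k + 1)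
  rw [show 2 * k + 7 - (k + 2) = k + 5 by omega] at e1
  rw [show 2 * k + 7 - (k + 1) = k + 6 by omega] at e2
  have e1' : ((2 * k + 7).choose (k + 3) : ℤ) * (k + 3) = (2 * k + 7).choose (k + 2) * (k + 5) := by
    exact_mod_cast e1
  have e2' : ((2 * k + 7).choose (k + 2) : ℤ) * (k + 2) = (2 * k + 7).choose (k + 1) * (k + 6) := by
    exact_mod_cast e2
  set A := ((2 * k + 7).choose (k + 3) : ℤ)
  set B := ((2 * k + 7).choose (k + 2) : ℤ)
  set C' := ((2 * k + 7).choose (k + 1) : ℤ)
  have hB : 0 ≤ B := by positivity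
  have hpos : (0 : ℤ) < (k + 3) * (k + 6) := by positivity
  have key : ((k : ℤ) + 3) * (k + 6) * (A - 2 * B + C') = - (2 * k * B) := by
    linear_combination (k + 6 : ℤ) * e1' - (k + 3 : ℤ) * e2'
  by_contra hcon
  push Not at hcon
  have := mul_pos hpos hcon
  rw [key] at this
  have : (0 : ℤ) ≤ 2 * k * B := by positivity
  linarith

lemma expected_zero (m : ℕ) (hm : 3 ≤ m) (d : Fin r → ℕ) (j₀ j₁ : Fin r) (hne : j₀ ≠ j₁)
    (h₀ : d j₀ = 1) (h₁ : d j₁ = 1) (hd : ∀ j, j ≠ j₀ → j ≠ j₁ → m < d j) :
    expected (2 * m + 1) d m = 0 := by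
  obtain ⟨k, rfl⟩ : ∃ k, m = k + 3 := ⟨m - 3, by omega⟩
  unfold expected
  rw [if_neg]
  intro hall
  have := hall (k + 3) le_rfl
  unfold series at this
  have hprod : (∏ j, (1 - Polynomial.X ^ d j) : Polynomial ℤ) =
      (1 - Polynomial.X) ^ 2 * ∏ j ∈ (Finset.univ.erase j₀).erase j₁, (1 - Polynomial.X ^ d j) := by
    rw [← Finset.mul_prod_erase Finset.univ _ (Finset.mem_univ j₀),
      ← Finset.mul_prod_erase (Finset.univ.erase j₀) _ (a := j₁) (by simp [hne.symm]), h₀, h₁]
    ring
  have hR : ∃ R : Polynomial ℤ, ∏ j ∈ (Finset.univ.erase j₀).erase j₁, (1 - Polynomial.X ^ d j)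
      = 1 + Polynomial.X ^ (k + 3 + 1) * R := by
    refine Finset.prod_induction _ (fun p : Polynomial ℤ => ∃ R, p = 1 + Polynomial.X ^ (k + 3 + 1) * R)
      ?_ ⟨0, by simp⟩ ?_
    · rintro a b ⟨R, rfl⟩ ⟨S, rfl⟩
      exact ⟨R + S + Polynomial.X ^ (k + 3 + 1) * R * S, by ring⟩
    · intro j hj
      simp only [Finset.mem_erase, Finset.mem_univ, and_true] at hj
      have hlt := hd j hj.2 hj.1
      obtain ⟨t, ht⟩ := Nat.exists_eq_add_of_le hlt
      refine ⟨- Polynomial.X ^ t, ?_⟩
      rw [ht, Nat.succ_eq_add_one]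
      ring
  obtain ⟨R, hR⟩ := hR
  rw [hprod, hR, ← mul_assoc, mul_add, mul_one, Polynomial.coeff_add,
    show 2 * (k + 3) + 1 = 2 * k + 7 by ring] at this
  have hz : ((1 + Polynomial.X) ^ (2 * k + 7) * (1 - Polynomial.X) ^ 2 * (Polynomial.X ^ (k + 3 + 1) * R) :
      Polynomial ℤ).coeff (k + 3) = 0 := by
    rw [mul_left_comm, Polynomial.coeff_X_pow_mul', if_neg (by omega)]
  rw [hz, add_zero] at this
  exact absurd this (not_lt.2 (coeff_nonpos k))

/-- **The square-free version of Fröberg's conjecture fails over every infinite field.**  Let `K` be an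
infinite field, `m ≥ 3`, `n = 2 m + 1`, and let `d` be degrees two of which are `1` and all others (if there
are any) are larger than `m`; for instance `n = 7` and two generators of degree `1`.  Then the Hilbert series
of the quotient of the square-free algebra in `n` variables by a generic ideal with generators of the degrees
`d` is not `⟨(1+t)ⁿ ∏ⱼ (1-t^{d_j})⟩`. -/
theorem result (K : Type*) [Field K] [Infinite K] (m : ℕ) (hm : 3 ≤ m) (r : ℕ) (d : Fin r → ℕ)
    (j₀ j₁ : Fin r) (hne : j₀ ≠ j₁) (h₀ : d j₀ = 1) (h₁ : d j₁ = 1)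
    (hd : ∀ j, j ≠ j₀ → j ≠ j₁ → m < d j) :
    ¬ GenericHilbert K (2 * m + 1) d (expected (2 * m + 1) d) := by
  rintro ⟨G, hG, hall⟩
  -- the coefficients of the two linear forms
  let A : Fin (2 * m + 1) → Coeff (2 * m + 1) d := fun k => ⟨j₀, ⟨{k}, by simp [h₀]⟩⟩
  let B : Fin (2 * m + 1) → Coeff (2 * m + 1) d := fun k => ⟨j₁, ⟨{k}, by simp [h₁]⟩⟩
  let D : MvPolynomial (Coeff (2 * m + 1) d) K :=
    (∏ k, X (A k)) * ∏ k, ∏ l ∈ Finset.univ.erase k, (X (B k) * X (A l) - X (B l) * X (A k))
  have hD : D ≠ 0 := by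
    intro h
    let ι : Fin (2 * m + 1) → K := fun i => Infinite.natEmbedding K i
    have hι : Function.Injective ι := (Infinite.natEmbedding K).injective.comp Fin.val_injective
    let c : Coeff (2 * m + 1) d → K := fun x => if x.1 = j₀ then 1 else ∑ i ∈ x.2.1, ι i
    have hcA : ∀ k, c (A k) = 1 := fun k => by simp [c, A]
    have hcB : ∀ k, c (B k) = ι k := fun k => by simp [c, B, hne.symm]
    have h2 : eval c D = 0 := by rw [h, map_zero]
    simp only [D, map_mul, map_prod, map_sub, eval_X, hcA, hcB, Finset.prod_const_one, one_mul,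
      mul_one] at h2
    rw [Finset.prod_eq_zero_iff] at h2
    obtain ⟨k, -, h2⟩ := h2
    rw [Finset.prod_eq_zero_iff] at h2
    obtain ⟨l, hl, h2⟩ := h2
    exact (Finset.ne_of_mem_erase hl) (hι (sub_eq_zero.1 h2)).symm
  obtain ⟨c, hc⟩ : ∃ c, eval c (G * D) ≠ 0 := by
    by_contra hcon
    push Not at hcon
    exact mul_ne_zero hG hD (MvPolynomial.funext fun c => by rw [hcon c, map_zero])
  rw [map_mul] at hc
  have hcG := left_ne_zero_of_mul hc
  have hcD := right_ne_zero_of_mul hc
  simp only [D, map_mul, map_prod, map_sub, eval_X] at hcD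
  have hcA := Finset.prod_ne_zero_iff.1 (left_ne_zero_of_mul hcD)
  have hcB := Finset.prod_ne_zero_iff.1 (right_ne_zero_of_mul hcD)
  obtain ⟨I, hI, hIc⟩ := Finset.exists_subset_card_eq (s := (Finset.univ : Finset (Fin (2 * m + 1))))
    (n := m) (by simp; omega)
  have hpos := hilb_pos c I (not_mem m rfl j₀ j₁ h₀ h₁ hd c (fun k => hcA k (Finset.mem_univ k))
    (fun k l hkl => by
      have := Finset.prod_ne_zero_iff.1 (hcB k (Finset.mem_univ k)) l (by simp [hkl.symm])
      exact sub_ne_zero.1 this) I hIc)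
  rw [hIc] at hpos
  have := hall c hcG m
  rw [expected_zero m hm d j₀ j₁ hne h₀ h₁ hd] at this
  have h0 : hilb c m = 0 := by exact_mod_cast this
  omega

end Pool.Agent.Results.MP_3acc10_al.LinearFormsFail
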